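import Pool.Agent.H595.Dens.AlgX

/-!
# Eisenstein polynomials
-/

set_option autoImplicit false

namespace Pool.Agent.H595.AD

open Polynomial Set Pool.Agent.H595.Dens Pool.Agent.H595.Alg

/-- Eisenstein's condition at the prime number two, without the condition on the content -/
def E2 (A : ℤ[X]) : Prop := ¬ (2 : ℤ) ∣ A.leadingCoeff ∧ (∀ i, i < A.natDegree → (2 : ℤ) ∣ A.coeff i) ∧
  ¬ (4 : ℤ) ∣ A.coeff 0

theorem irreducible_of_E2 {A : ℤ[X]} (hp : A.IsPrimitive) (h : E2 A) (h0 : 0 < A.natDegree) : Irreducible A := by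
  have hprime : (Ideal.span {(2 : ℤ)}).IsPrime := by
    rw [Ideal.span_singleton_prime (by norm_num)]
    exact Int.prime_two
  refine IsEisensteinAt.irreducible (𝓟 := Ideal.span {(2 : ℤ)}) ⟨?_, ?_, ?_⟩ hprime hp h0
  · rw [Ideal.mem_span_singleton]
    exact h.1
  · intro n hn
    rw [Ideal.mem_span_singleton]
    exact h.2.1 n hn
  · rw [Ideal.span_singleton_pow, Ideal.mem_span_singleton]
    norm_num
    exact h.2.2

/-- the primitive part -/
theorem prim {Q : ℤ[X]} (h : E2 Q) (h0 : 0 < Q.natDegree) {β : ℝ} (hβ : aeval β Q = 0) {H : ℝ}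
    (hH : ∀ i, |(Q.coeff i : ℝ)| ≤ H) : ∃ A : ℤ[X], Irreducible A ∧ E2 A ∧ A.natDegree = Q.natDegree ∧
      aeval β A = 0 ∧ ∀ i, |(A.coeff i : ℝ)| ≤ H := by
  obtain ⟨A, hA⟩ : ∃ A : ℤ[X], A = Q.primPart := ⟨_, rfl⟩
  obtain ⟨c, hc⟩ : ∃ c : ℤ, c = Q.content := ⟨_, rfl⟩
  have hQ : Q = C c * A := by
    rw [hA, hc]
    exact Q.eq_C_content_mul_primPart
  have hQ0 : Q ≠ 0 := by
    rintro rfl
    rw [natDegree_zero] at h0
    exact lt_irrefl _ h0
  have hc0 : c ≠ 0 := by
    rintro rfl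
    rw [C_0, zero_mul] at hQ
    exact hQ0 hQ
  have hdeg : A.natDegree = Q.natDegree := by rw [hA]; exact Q.natDegree_primPart
  have hco : ∀ i, Q.coeff i = c * A.coeff i := fun i => by
    rw [← coeff_C_mul, ← hQ]
  have hlc : Q.leadingCoeff = c * A.leadingCoeff := by
    rw [leadingCoeff, leadingCoeff, hdeg, hco]
  have hodd : ¬ (2 : ℤ) ∣ c := by
    intro h1
    apply h.1
    rw [hlc]
    exact h1.mul_right _
  have hE : E2 A := by
    refine ⟨fun h1 => h.1 ?_, fun i hi => ?_, fun h1 => h.2.2 ?_⟩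
    · rw [hlc]
      exact h1.mul_left _
    · have h1 := h.2.1 i (by rw [← hdeg]; exact hi)
      rw [hco] at h1
      exact (Int.prime_two.dvd_or_dvd h1).resolve_left hodd
    · rw [hco]
      exact h1.mul_left _
  refine ⟨A, irreducible_of_E2 (by rw [hA]; exact Q.isPrimitive_primPart) hE (by rw [hdeg]; exact h0), hE, hdeg,
    ?_, fun i => ?_⟩
  · rw [hQ, map_mul, aeval_C, mul_eq_zero] at hβ
    refine hβ.resolve_left (fun h1 => hc0 ?_)
    have : ((c : ℤ) : ℝ) = 0 := by simpa using h1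
    exact_mod_cast this
  · refine le_trans ?_ (hH i)
    rw [hco]
    push_cast
    rw [abs_mul]
    have h1 : (1 : ℝ) ≤ |(c : ℝ)| := by exact_mod_cast Int.one_le_abs hc0
    have h2 := abs_nonneg (A.coeff i : ℝ)
    nlinarith

/-- a nonzero polynomial of smaller degree does not vanish -/
theorem no_small {A : ℤ[X]} (hA : Irreducible A) {α : ℝ} (hα : aeval α A = 0) {u : ℤ[X]} (hu : u ≠ 0)
    (hd : u.natDegree < A.natDegree) : aeval α u ≠ 0 := by
  intro h0
  have pA := hA.isPrimitive (by omega)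
  have iA := (IsPrimitive.Int.irreducible_iff_irreducible_map_cast pA).1 hA
  have eA : aeval α (A.map (Int.castRingHom ℚ)) = 0 := by
    rw [← hα]
    exact aeval_map_algebraMap ℚ α A
  have eu : aeval α (u.map (Int.castRingHom ℚ)) = 0 := by
    rw [← h0]
    exact aeval_map_algebraMap ℚ α u
  have dA := minpoly.dvd ℚ α eA
  have hnu : ¬ IsUnit (minpoly ℚ α) := minpoly.not_isUnit ℚ α
  have aA := (iA.dvd_iff.1 dA).resolve_left hnu
  have hu' : u.map (Int.castRingHom ℚ) ≠ 0 := by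
    rw [Ne, Polynomial.map_eq_zero_iff (Int.castRingHom ℚ).injective_int]
    exact hu
  have h1 := natDegree_le_of_dvd (minpoly.dvd ℚ α eu) hu'
  have h2 : (minpoly ℚ α).natDegree = (A.map (Int.castRingHom ℚ)).natDegree :=
    (natDegree_eq_of_degree_eq (degree_eq_degree_of_associated aA)).symm
  rw [h2, natDegree_map_eq_of_injective (Int.castRingHom ℚ).injective_int,
    natDegree_map_eq_of_injective (Int.castRingHom ℚ).injective_int] at h1
  omega

theorem deriv_ne {A : ℤ[X]} (hA : Irreducible A) (h0 : 0 < A.natDegree) {α : ℝ} (hα : aeval α A = 0) :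
    aeval α (derivative A) ≠ 0 := by
  have h1 : (derivative A).natDegree < A.natDegree := natDegree_derivative_lt h0.ne'
  refine no_small hA hα ?_ h1
  intro h2
  have h3 := derivative_eq_zero.1 h2
  omega

theorem pow_diff {M x α : ℝ} (hx : |x| ≤ M) (hα : |α| ≤ M) (i : ℕ) : |x ^ i - α ^ i| ≤ i * M ^ (i - 1) * |x - α| := by
  have hM : 0 ≤ M := (abs_nonneg x).trans hx
  induction i with
  | zero => simp
  | succ i ih =>
    have e1 : x ^ (i + 1) - α ^ (i + 1) = x * (x ^ i - α ^ i) + α ^ i * (x - α) := by ring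
    rw [e1]
    have h0 := abs_nonneg (x - α)
    have h1 : |x * (x ^ i - α ^ i)| ≤ M * (i * M ^ (i - 1) * |x - α|) := by
      rw [abs_mul]
      exact mul_le_mul hx ih (abs_nonneg _) hM
    have h2 : |α ^ i * (x - α)| ≤ M ^ i * |x - α| := by
      rw [abs_mul, abs_pow]
      exact mul_le_mul_of_nonneg_right (pow_le_pow_left₀ (abs_nonneg _) hα i) h0
    have h3 : M * (i * M ^ (i - 1) * |x - α|) = i * M ^ i * |x - α| := by
      rcases i with _ | i
      · simp
      · rw [Nat.add_sub_cancel, pow_succ]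
        ring
    refine (abs_add_le _ _).trans ?_
    rw [h3] at h1
    push_cast
    calc |x * (x ^ i - α ^ i)| + |α ^ i * (x - α)| ≤ i * M ^ i * |x - α| + M ^ i * |x - α| := add_le_add h1 h2
      _ = _ := by ring

/-- an integer combination of the powers of `α` -/
theorem exists_u {A : ℤ[X]} (hA : Irreducible A) {n : ℕ} (hn : A.natDegree = n + 1) {α : ℝ} (hα : aeval α A = 0) :
    ∃ C : ℝ, 0 < C ∧ ∀ k : ℕ, 1 ≤ k → ∃ u : ℤ[X], u.natDegree ≤ n ∧ (∀ i, |(u.coeff i : ℝ)| ≤ k) ∧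
      aeval α u ≠ 0 ∧ |aeval α u| ≤ C / k ^ n := by
  obtain ⟨C, hC, h⟩ := dirichlet (fun i : Fin (n + 2) => α ^ (i : ℕ)) (Fin.last (n + 1)) n (by simp)
  refine ⟨C, hC, fun k hk => ?_⟩
  obtain ⟨P, hP0, hPl, hPk, hP⟩ := h k hk
  obtain ⟨u, hu⟩ : ∃ u : ℤ[X], u = ∑ i : Fin (n + 2), monomial (i : ℕ) (P i) := ⟨_, rfl⟩
  have hco : ∀ j : ℕ, u.coeff j = if hj : j < n + 2 then P ⟨j, hj⟩ else 0 := by
    intro j
    rw [hu, finsetSum_coeff]
    split_ifs with hj
    · rw [Finset.sum_eq_single ⟨j, hj⟩]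
      · rw [coeff_monomial, if_pos rfl]
      · intro i _ hi
        rw [coeff_monomial, if_neg]
        intro h3
        exact hi (Fin.ext h3)
      · intro h3
        exact absurd (Finset.mem_univ _) h3
    · refine Finset.sum_eq_zero fun i _ => ?_
      rw [coeff_monomial, if_neg]
      have := i.2
      omega
  have hdeg : u.natDegree ≤ n := by
    refine natDegree_le_iff_coeff_eq_zero.2 fun j hj => ?_
    rw [hco]
    split_ifs with hj'
    · have : (⟨j, hj'⟩ : Fin (n + 2)) = Fin.last (n + 1) := Fin.ext (by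
        show j = n + 1
        omega)
      rw [this, hPl]
    · rfl
  have hu0 : u ≠ 0 := by
    intro h0
    apply hP0
    funext i
    have h1 := hco i
    rw [h0, coeff_zero, dif_pos i.2] at h1
    exact h1.symm
  have hval : aeval α u = ∑ i : Fin (n + 2), (P i : ℝ) * α ^ (i : ℕ) := by
    rw [hu, map_sum]
    refine Finset.sum_congr rfl fun i _ => ?_
    rw [aeval_monomial]
    rfl
  refine ⟨u, hdeg, fun i => ?_, no_small hA hα hu0 (by omega), by rw [hval]; exact hP⟩
  rw [hco]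
  split_ifs with hj
  · exact hPk _
  · rw [Int.cast_zero, abs_zero]
    exact Nat.cast_nonneg k

theorem aeval_diff {u : ℤ[X]} {n : ℕ} {k : ℝ} (hn : u.natDegree ≤ n) (hu : ∀ i, |(u.coeff i : ℝ)| ≤ k) {M x α : ℝ}
    (hx : |x| ≤ M) (hα : |α| ≤ M) :
    |aeval x u - aeval α u| ≤ k * (∑ i ∈ Finset.range (n + 1), i * M ^ (i - 1)) * |x - α| := by
  rw [aeval_eq_sum_range' (show u.natDegree < n + 1 by omega), aeval_eq_sum_range' (show u.natDegree < n + 1 by omega),
    ← Finset.sum_sub_distrib]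
  refine (Finset.abs_sum_le_sum_abs _ _).trans ?_
  rw [Finset.mul_sum, Finset.sum_mul]
  apply Finset.sum_le_sum
  intro i _
  have h0 : 0 ≤ k := (abs_nonneg _).trans (hu 0)
  rw [zsmul_eq_mul, zsmul_eq_mul, ← mul_sub, abs_mul]
  calc |(u.coeff i : ℝ)| * |x ^ i - α ^ i| ≤ k * (i * M ^ (i - 1) * |x - α|) :=
        mul_le_mul (hu i) (pow_diff hx hα i) (abs_nonneg _) h0
    _ = _ := by ring

end Pool.Agent.H595.AD
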