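import Pool.Agent.H595.AD.AD1

/-!
# Algebraic numbers close to an algebraic number
-/

set_option autoImplicit false

namespace Pool.Agent.H595.AD

open Polynomial Set Pool.Agent.H595.Dens Pool.Agent.H595.Alg

/-- the perturbed polynomial -/
theorem pert {A u : ℤ[X]} {n : ℕ} (hn : A.natDegree = n + 1) (hE : E2 A) (hu : u.natDegree ≤ n) {m : ℤ}
    (hm : ¬ (2 : ℤ) ∣ m) : (C 4 * u + C m * A).natDegree = n + 1 ∧ E2 (C 4 * u + C m * A) := by
  have hm0 : m ≠ 0 := by
    rintro rfl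
    exact hm (dvd_zero _)
  have hlc : (C 4 * u + C m * A).coeff (n + 1) = m * A.leadingCoeff := by
    rw [coeff_add, coeff_C_mul, coeff_C_mul, coeff_eq_zero_of_natDegree_lt (show u.natDegree < n + 1 by omega),
      mul_zero, zero_add, leadingCoeff, hn]
  have hA0 : A ≠ 0 := by
    rintro rfl
    rw [natDegree_zero] at hn
    omega
  have hdeg : (C 4 * u + C m * A).natDegree = n + 1 := by
    apply natDegree_eq_of_le_of_coeff_ne_zero
    · refine (natDegree_add_le _ _).trans (max_le ?_ ?_)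
      · exact (natDegree_C_mul_le _ _).trans (by omega)
      · exact (natDegree_C_mul_le _ _).trans (by omega)
    · rw [hlc]
      exact mul_ne_zero hm0 (leadingCoeff_ne_zero.2 hA0)
  refine ⟨hdeg, ?_, ?_, ?_⟩
  · rw [leadingCoeff, hdeg, hlc]
    intro h
    rcases Int.prime_two.dvd_or_dvd h with h | h
    · exact hm h
    · exact hE.1 h
  · intro i hi
    rw [hdeg] at hi
    rw [coeff_add, coeff_C_mul, coeff_C_mul]
    exact dvd_add ((show (2 : ℤ) ∣ 4 by norm_num).mul_right _) ((hE.2.1 i (by omega)).mul_left _)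
  · rw [coeff_add, coeff_C_mul, coeff_C_mul]
    intro h
    have h1 : (4 : ℤ) ∣ m * A.coeff 0 := (Int.dvd_add_right (dvd_mul_right 4 (u.coeff 0))).1 h
    have h2 : IsCoprime (4 : ℤ) m := by
      have h3 : IsCoprime (2 : ℤ) m := (Int.prime_two.coprime_iff_not_dvd).2 hm
      have h4 := h3.pow_left (m := 2)
      norm_num at h4
      exact h4
    exact hE.2.2 (h2.dvd_of_dvd_mul_left h1)

/-- **The step.** -/
theorem step {A : ℤ[X]} (hA : Irreducible A) (hE : E2 A) {n : ℕ} (hn : A.natDegree = n + 1) {α : ℝ}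
    (hα : aeval α A = 0) : ∃ (C : ℝ) (k₀ : ℕ), 1 ≤ C ∧ ∀ k : ℕ, k₀ ≤ k → ∃ (A' : ℤ[X]) (β : ℝ), Irreducible A' ∧
      E2 A' ∧ A'.natDegree = n + 1 ∧ aeval β A' = 0 ∧ (∀ i, |(A'.coeff i : ℝ)| ≤ C * k) ∧ 0 < |β - α| ∧
      |β - α| ≤ C / k ^ (n + 1) := by
  obtain ⟨C₁, hC₁, h1⟩ := exists_u hA hn hα
  obtain ⟨c, hc⟩ : ∃ c : ℝ, c = aeval α (derivative A) := ⟨_, rfl⟩
  have hc0 : c ≠ 0 := by
    rw [hc]
    exact deriv_ne hA (by omega) hα
  have hc' : 0 < |c| := abs_pos.2 hc0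
  obtain ⟨M, hM⟩ : ∃ M : ℝ, M = |α| + 1 := ⟨_, rfl⟩
  obtain ⟨B, hB⟩ : ∃ B : ℝ, B = ∑ i ∈ Finset.range (n + 1), i * M ^ (i - 1) := ⟨_, rfl⟩
  have hα0 := abs_nonneg α
  have hB0 : 0 ≤ B := by
    rw [hB]
    refine Finset.sum_nonneg fun i _ => ?_
    have : 0 ≤ M := by rw [hM]; linarith
    positivity
  -- the linear approximation
  have hder : HasDerivAt (fun x : ℝ => aeval x A) c α := by
    rw [hc]
    exact A.hasDerivAt_aeval α
  have hlin : ∀ᶠ x in nhds α, |aeval x A - c * (x - α)| ≤ |c| / 2 * |x - α| := by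
    have h2 := (hasDerivAt_iff_isLittleO.1 hder).def (show 0 < |c| / 2 by positivity)
    filter_upwards [h2] with x hx
    rw [Real.norm_eq_abs, Real.norm_eq_abs, hα, sub_zero, smul_eq_mul, mul_comm (x - α)] at hx
    exact hx
  obtain ⟨r, hr, hlin'⟩ := Metric.eventually_nhds_iff.1 hlin
  obtain ⟨K, hK⟩ := exists_nat_ge (16 * B / |c| + 1)
  have hK1 : (1 : ℝ) ≤ K := by
    have : 0 ≤ 16 * B / |c| := by positivity
    linarith
  rw [← sub_nonneg] at hK
  have hK2 : 16 * B ≤ K * |c| := by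
    have : 16 * B / |c| ≤ K := by linarith
    rwa [div_le_iff₀ hc'] at this
  obtain ⟨D, hD⟩ : ∃ D : ℝ, D = 32 * C₁ / |c| := ⟨_, rfl⟩
  have hD0 : 0 < D := by rw [hD]; positivity
  obtain ⟨C, hC⟩ : ∃ C : ℝ, C = 1 + D + 4 + (2 * K + 1) * hgt A := ⟨_, rfl⟩
  have hA1 : (1 : ℝ) ≤ hgt A := by exact_mod_cast one_le_hgt hA.ne_zero
  have hCD : D ≤ C := by
    have : 0 ≤ (2 * (K : ℝ) + 1) * hgt A := by positivity
    rw [hC]
    linarith
  have hC1 : 1 ≤ C := by
    have : 0 ≤ (2 * (K : ℝ) + 1) * hgt A := by positivity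
    rw [hC]
    linarith
  obtain ⟨k₀, hk₀⟩ := exists_nat_ge (1 + D + 2 * D / r)
  have hDr : 0 < 2 * D / r := by positivity
  refine ⟨C, k₀, hC1, fun k hk => ?_⟩
  have hk' : 1 + D + 2 * D / r ≤ k := hk₀.trans (by exact_mod_cast hk)
  have hk1 : (1 : ℝ) ≤ k := by linarith
  have hkn : 1 ≤ k := by exact_mod_cast hk1
  obtain ⟨u, hu1, hu2, hu3, hu4⟩ := h1 k hkn
  obtain ⟨m, hm⟩ : ∃ m : ℤ, m = 2 * (K * k) + 1 := ⟨_, rfl⟩
  have hmr : (m : ℝ) = 2 * (K * k) + 1 := by rw [hm]; push_cast; ring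
  have hKk : (k : ℝ) ≤ K * k := by nlinarith
  have hmk : (k : ℝ) ≤ m := by rw [hmr]; linarith
  have hm0 : (0 : ℝ) < m := by linarith
  have hm2 : ¬ (2 : ℤ) ∣ m := by
    rw [hm]
    omega
  have hmc : 16 * (k * B) ≤ m * |c| := by
    have h2 : k * (16 * B) ≤ k * (K * |c|) := mul_le_mul_of_nonneg_left hK2 (by linarith)
    rw [hmr]
    have h3 : 0 ≤ k * (K * |c|) := by positivity
    nlinarith
  obtain ⟨hQ1, hQ2⟩ := pert hn hE hu1 hm2
  obtain ⟨Q, hQ⟩ : ∃ Q : ℤ[X], Q = Polynomial.C (4 : ℤ) * u + Polynomial.C m * A := ⟨_, rfl⟩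
  rw [← hQ] at hQ1 hQ2
  have hval : ∀ x : ℝ, aeval x Q = 4 * aeval x u + m * aeval x A := by
    intro x
    rw [hQ, map_add, map_mul, map_mul, aeval_C, aeval_C]
    simp
  obtain ⟨g, hg⟩ : ∃ g : ℝ, g = |aeval α u| := ⟨_, rfl⟩
  have hg0 : 0 < g := by rw [hg]; exact abs_pos.2 hu3
  obtain ⟨δ, hδ⟩ : ∃ δ : ℝ, δ = 32 * g / (m * |c|) := ⟨_, rfl⟩
  have hmc0 : 0 < m * |c| := by positivity
  have hδ0 : 0 < δ := by rw [hδ]; positivity
  have hmδ : m * |c| * δ = 32 * g := by rw [hδ]; field_simp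
  have hkn0 : (0 : ℝ) < k ^ (n + 1) := by positivity
  have hδk : δ ≤ D / k ^ (n + 1) := by
    rw [hδ, hD, div_le_div_iff₀ hmc0 hkn0]
    rw [← hg, le_div_iff₀ (by positivity)] at hu4
    have h2 : g * k ^ n * k ≤ C₁ * m := mul_le_mul hu4 hmk (by linarith) hC₁.le
    have e1 : 32 * g * (k : ℝ) ^ (n + 1) = 32 * (g * k ^ n * k) := by rw [pow_succ]; ring
    have e2 : 32 * C₁ / |c| * (m * |c|) = 32 * (C₁ * m) := by field_simp
    rw [e1, e2]
    linarith
  have hk1n : (k : ℝ) ≤ k ^ (n + 1) := by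
    rw [pow_succ]
    have := one_le_pow₀ (n := n) hk1
    nlinarith
  have hδk' : δ ≤ D / k := hδk.trans (div_le_div_of_nonneg_left hD0.le (by linarith) hk1n)
  have hδ1 : δ ≤ 1 := by
    refine hδk'.trans ?_
    rw [div_le_one (by linarith)]
    linarith
  have hδr : δ < r := by
    refine lt_of_le_of_lt hδk' ?_
    rw [div_lt_iff₀ (by linarith)]
    have h2 : 2 * D / r ≤ k := by linarith
    rw [div_le_iff₀ hr] at h2
    linarith
  have main : ∀ x : ℝ, |x - α| = δ → |aeval x Q - m * (c * (x - α))| < m * |c| * δ := by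
    intro x hx
    have hxM : |x| ≤ M := by
      have e1 : x = (x - α) + α := by ring
      rw [e1]
      refine (abs_add_le _ _).trans ?_
      rw [hM]
      linarith
    have h2 := hlin' (y := x) (by rw [Real.dist_eq, hx]; exact hδr)
    have h3 := aeval_diff hu1 hu2 hxM (show |α| ≤ M by rw [hM]; linarith)
    rw [← hB, hx] at h3
    rw [hx] at h2
    have e1 : aeval x Q - m * (c * (x - α)) = 4 * (aeval x u - aeval α u) + 4 * aeval α u +
        m * (aeval x A - c * (x - α)) := by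
      rw [hval]
      ring
    rw [e1]
    have h4 : |4 * (aeval x u - aeval α u) + 4 * aeval α u + m * (aeval x A - c * (x - α))| ≤
        4 * |aeval x u - aeval α u| + 4 * g + m * |aeval x A - c * (x - α)| := by
      refine (abs_add_le _ _).trans (add_le_add ((abs_add_le _ _).trans (add_le_add ?_ ?_)) ?_)
      · rw [abs_mul, abs_of_pos (show (0 : ℝ) < 4 by norm_num)]
      · rw [abs_mul, abs_of_pos (show (0 : ℝ) < 4 by norm_num), hg]
      · rw [abs_mul, abs_of_pos hm0]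
    have h5 : m * |aeval x A - c * (x - α)| ≤ m * (|c| / 2 * δ) := mul_le_mul_of_nonneg_left h2 hm0.le
    have h6 : k * B * δ ≤ m * |c| / 16 * δ := mul_le_mul_of_nonneg_right (by linarith) hδ0.le
    have h7 : m * (|c| / 2 * δ) = m * |c| * δ / 2 := by ring
    have h8 : m * |c| / 16 * δ = m * |c| * δ / 16 := by ring
    rw [h7] at h5
    rw [h8] at h6
    linarith
  have hcont : Continuous fun x : ℝ => aeval x Q := Q.continuous_aeval
  have h2 := main (α + δ) (by rw [add_sub_cancel_left, abs_of_pos hδ0])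
  have h3 := main (α - δ) (by rw [sub_sub_cancel_left, abs_neg, abs_of_pos hδ0])
  rw [add_sub_cancel_left, abs_lt] at h2
  rw [sub_sub_cancel_left, abs_lt] at h3
  obtain ⟨β, hβ1, hβ2⟩ : ∃ β ∈ Icc (α - δ) (α + δ), aeval β Q = 0 := by
    rcases lt_or_gt_of_ne hc0 with h4 | h4
    · rw [abs_of_neg h4] at h2 h3
      have h5 : aeval (α + δ) Q ≤ 0 := by nlinarith [h2.2]
      have h6 : 0 ≤ aeval (α - δ) Q := by nlinarith [h3.1]
      have h7 := intermediate_value_Icc' (show α - δ ≤ α + δ by linarith) hcont.continuousOn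
      obtain ⟨β, hβ, h8⟩ := h7 ⟨h5, h6⟩
      exact ⟨β, hβ, h8⟩
    · rw [abs_of_pos h4] at h2 h3
      have h5 : aeval (α - δ) Q ≤ 0 := by nlinarith [h3.2]
      have h6 : 0 ≤ aeval (α + δ) Q := by nlinarith [h2.1]
      have h7 := intermediate_value_Icc (show α - δ ≤ α + δ by linarith) hcont.continuousOn
      obtain ⟨β, hβ, h8⟩ := h7 ⟨h5, h6⟩
      exact ⟨β, hβ, h8⟩
  obtain ⟨A', hA1', hA2, hA3, hA4, hA5⟩ := prim hQ2 (by rw [hQ1]; omega) hβ2 (H := C * k) (fun i => by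
    rw [hQ, coeff_add, coeff_C_mul, coeff_C_mul]
    push_cast
    have h4 := hu2 i
    have h5 := coeff_le_hgt A i
    refine (abs_add_le _ _).trans ?_
    rw [abs_mul, abs_mul, abs_of_pos (show (0 : ℝ) < 4 by norm_num), abs_of_pos hm0]
    have h6 : (m : ℝ) * |(A.coeff i : ℝ)| ≤ ((2 * K + 1) * k) * hgt A := by
      apply mul_le_mul _ h5 (abs_nonneg _) (by positivity)
      rw [hmr]
      nlinarith
    have h7 : 0 ≤ (1 + D) * k := by positivity
    rw [hC]
    nlinarith)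
  refine ⟨A', β, hA1', hA2, by rw [hA3, hQ1], hA4, hA5, ?_, ?_⟩
  · rw [abs_pos, sub_ne_zero]
    rintro rfl
    rw [hval, hα, mul_zero, add_zero] at hβ2
    have : aeval β u = 0 := by linarith
    exact hu3 this
  · have h4 : |β - α| ≤ δ := by
      rw [abs_le]
      constructor
      · linarith [hβ1.1]
      · linarith [hβ1.2]
    exact (h4.trans hδk).trans (div_le_div_of_nonneg_right hCD hkn0.le)

end Pool.Agent.H595.AD
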