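import Pool.Agent.H595.AD.AD2

/-!
# The chain of algebraic numbers
-/

set_option autoImplicit false

namespace Pool.Agent.H595.AD

open Polynomial MeasureTheory Filter Topology Set Pool.Agent.H595.Dens Pool.Agent.H595.Alg

/-- the first polynomial -/
theorem start (n : ℕ) {a b : ℝ} (hab : a < b) : ∃ (A : ℤ[X]) (α : ℝ), Irreducible A ∧ E2 A ∧ A.natDegree = n + 1 ∧
    aeval α A = 0 ∧ a < α ∧ α < b := by
  obtain ⟨y, hy1, hy2⟩ := exists_rat_btwn hab
  obtain ⟨p, hp⟩ : ∃ p : ℤ, p = y.num := ⟨_, rfl⟩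
  obtain ⟨q, hq⟩ : ∃ q : ℤ, q = y.den := ⟨_, rfl⟩
  have hq1 : (1 : ℝ) ≤ q := by rw [hq]; exact_mod_cast y.pos
  have hq0 : q ≠ 0 := by
    rintro rfl
    norm_num at hq1
  have hyq : (q : ℝ) * y - p = 0 := by
    have : (q : ℝ) * y = p := by
      rw [hp, hq]
      exact_mod_cast y.den_mul_eq_num
    linarith
  obtain ⟨δ, hδ0, hδa, hδb⟩ : ∃ δ : ℝ, 0 < δ ∧ a < y - δ ∧ y + δ < b :=
    ⟨min (y - a) (b - y) / 2, half_pos (lt_min (by linarith) (by linarith)), by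
      have := min_le_left ((y : ℝ) - a) (b - y)
      linarith, by
      have := min_le_right ((y : ℝ) - a) (b - y)
      linarith⟩
  obtain ⟨M, hM⟩ : ∃ M : ℝ, M = |(y : ℝ)| + δ := ⟨_, rfl⟩
  have hy0 := abs_nonneg (y : ℝ)
  have hM0 : 0 ≤ M := by rw [hM]; linarith
  obtain ⟨k, hk⟩ := exists_nat_gt (max 1 ((M ^ (n + 1) + 2) / δ))
  have hk1 : (1 : ℝ) < k := lt_of_le_of_lt (le_max_left _ _) hk
  have hk2 : M ^ (n + 1) + 2 < k * δ := by
    have := lt_of_le_of_lt (le_max_right _ _) hk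
    rwa [div_lt_iff₀ hδ0] at this
  have hkn : 1 < k := by exact_mod_cast hk1
  obtain ⟨Q, hQ⟩ : ∃ Q : ℤ[X], Q = C (4 * (k : ℤ)) * (C q * X - C p) + (X ^ (n + 1) + C 2) := ⟨_, rfl⟩
  have hco : ∀ i, Q.coeff i = 4 * k * ((if i = 1 then q else 0) - (if i = 0 then p else 0)) +
      ((if i = n + 1 then 1 else 0) + (if i = 0 then 2 else 0)) := by
    intro i
    rw [hQ, coeff_add, coeff_C_mul, coeff_sub, coeff_C_mul, coeff_X, coeff_C, coeff_add, coeff_X_pow, coeff_C]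
    congr 2
    · by_cases h : i = 1
      · rw [if_pos h.symm, if_pos h, mul_one]
      · rw [if_neg (Ne.symm h), if_neg h, mul_zero]
  have hlead : Q.coeff (n + 1) ≠ 0 ∧ ¬ (2 : ℤ) ∣ Q.coeff (n + 1) := by
    have h1 : Q.coeff (n + 1) = 4 * k * (if n + 1 = 1 then q else 0) + 1 := by
      rw [hco, if_neg (show ¬ n + 1 = 0 by omega), if_pos (show n + 1 = n + 1 from rfl),
        if_neg (show ¬ n + 1 = 0 by omega)]
      ring
    have h2 : ∃ z : ℤ, Q.coeff (n + 1) = 2 * z + 1 := ⟨2 * k * (if n + 1 = 1 then q else 0), by rw [h1]; ring⟩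
    obtain ⟨z, hz⟩ := h2
    rw [hz]
    omega
  have hdeg : Q.natDegree = n + 1 := by
    apply natDegree_eq_of_le_of_coeff_ne_zero _ hlead.1
    refine natDegree_le_iff_coeff_eq_zero.2 fun j hj => ?_
    rw [hco, if_neg (show ¬ j = 1 by omega), if_neg (show ¬ j = 0 by omega), if_neg (show ¬ j = n + 1 by omega),
      if_neg (show ¬ j = 0 by omega)]
    ring
  have hE : E2 Q := by
    refine ⟨?_, fun i hi => ?_, ?_⟩
    · rw [leadingCoeff, hdeg]
      exact hlead.2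
    · rw [hdeg] at hi
      rw [hco, if_neg (show ¬ i = n + 1 by omega)]
      split_ifs
      · omega
      · exact ⟨2 * k * q, by ring⟩
      · exact ⟨1 - 2 * k * p, by ring⟩
      · exact ⟨0, by ring⟩
    · rw [hco, if_neg (show ¬ (0 : ℕ) = 1 by omega), if_pos rfl, if_neg (show ¬ 0 = n + 1 by omega)]
      intro h
      have h1 : (4 : ℤ) ∣ 2 := by
        have h2 : (4 : ℤ) ∣ 4 * k * (0 - p) := ⟨k * (0 - p), by ring⟩
        have h3 := (Int.dvd_add_right h2).1 h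
        simpa using h3
      omega
  have hval : ∀ x : ℝ, aeval x Q = 4 * k * (q * x - p) + (x ^ (n + 1) + 2) := by
    intro x
    simp only [hQ, map_add, map_mul, map_sub, map_pow, aeval_C, aeval_X]
    simp
  have hbd : ∀ x : ℝ, |x| ≤ M → |x ^ (n + 1) + 2| ≤ M ^ (n + 1) + 2 := by
    intro x hx
    refine (abs_add_le _ _).trans ?_
    rw [abs_pow, abs_of_pos (show (0 : ℝ) < 2 by norm_num)]
    have := pow_le_pow_left₀ (abs_nonneg x) hx (n + 1)
    linarith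
  have hk0 : (0 : ℝ) < k := by linarith
  have hkδ : 0 < k * δ := by positivity
  have h1 : 0 ≤ aeval ((y : ℝ) + δ) Q := by
    have h2 := hbd (y + δ) ((abs_add_le _ _).trans (by rw [hM, abs_of_pos hδ0]))
    rw [abs_le] at h2
    rw [hval]
    have h3 : (q : ℝ) * (y + δ) - p = q * δ := by linear_combination hyq
    rw [h3]
    have h4 : k * δ ≤ k * (q * δ) := by
      apply mul_le_mul_of_nonneg_left _ hk0.le
      nlinarith
    nlinarith [h2.1]
  have h2 : aeval ((y : ℝ) - δ) Q ≤ 0 := by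
    have h2 := hbd (y - δ) (by
      refine (abs_sub _ _).trans ?_
      rw [hM, abs_of_pos hδ0])
    rw [abs_le] at h2
    rw [hval]
    have h3 : (q : ℝ) * (y - δ) - p = -(q * δ) := by linear_combination hyq
    rw [h3]
    have h4 : k * δ ≤ k * (q * δ) := by
      apply mul_le_mul_of_nonneg_left _ hk0.le
      nlinarith
    nlinarith [h2.2]
  have hcont : Continuous fun x : ℝ => aeval x Q := Q.continuous_aeval
  obtain ⟨β, hβ1, hβ2⟩ := intermediate_value_Icc (show (y : ℝ) - δ ≤ y + δ by linarith) hcont.continuousOn ⟨h2, h1⟩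
  obtain ⟨A, hA1, hA2, hA3, hA4, -⟩ := prim hE (by rw [hdeg]; omega) hβ2 (coeff_le_hgt Q)
  exact ⟨A, β, hA1, hA2, by rw [hA3, hdeg], hA4, by linarith [hβ1.1], by linarith [hβ1.2]⟩

/-- the states -/
structure St where
  A : ℤ[X]
  α : ℝ
  K : ℝ
  δ : ℝ

def Good (n : ℕ) (s : St) : Prop := Irreducible s.A ∧ E2 s.A ∧ s.A.natDegree = n + 1 ∧ aeval s.α s.A = 0 ∧
  (∀ i, |(s.A.coeff i : ℝ)| ≤ s.K) ∧ 2 ≤ s.K ∧ 0 < s.δ

def Nxt (n j : ℕ) (s s' : St) : Prop := s'.δ = |s'.α - s.α| ∧ s'.δ ≤ s.δ / 4 ∧ s.K ^ (j + 1) ≤ s'.K ∧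
  2 * s.K ≤ s'.K ∧ Real.log s'.δ ≤ -(((n : ℝ) + 1) * (1 - 1 / (j + 1)) * Real.log s'.K)

theorem exists_next (n j : ℕ) (s : St) (hs : Good n s) : ∃ s', Good n s' ∧ Nxt n j s s' := by
  obtain ⟨hA, hE, hn, hα, hK, hK2, hδ⟩ := hs
  obtain ⟨C, k₀, hC, h⟩ := step hA hE hn hα
  have hC0 : 0 < C := by linarith
  obtain ⟨k, hk⟩ := exists_nat_ge (max (max (k₀ : ℝ) (4 * C / s.δ)) (max (max (s.K ^ (j + 1)) (2 * s.K))
    (Real.exp (((n : ℝ) + 2) * Real.log C * (j + 1)))))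
  have hk1 : (k₀ : ℝ) ≤ k := ((le_max_left _ _).trans (le_max_left _ _)).trans hk
  have hk2 : 4 * C / s.δ ≤ k := ((le_max_right _ _).trans (le_max_left _ _)).trans hk
  have hk3 : s.K ^ (j + 1) ≤ k := (((le_max_left _ _).trans (le_max_left _ _)).trans (le_max_right _ _)).trans hk
  have hk4 : 2 * s.K ≤ k := (((le_max_right _ _).trans (le_max_left _ _)).trans (le_max_right _ _)).trans hk
  have hk5 : Real.exp (((n : ℝ) + 2) * Real.log C * (j + 1)) ≤ k := ((le_max_right _ _).trans (le_max_right _ _)).trans hk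
  have hk0 : (4 : ℝ) ≤ k := by linarith
  have hkp : (0 : ℝ) < k := by linarith
  obtain ⟨A', β, h1, h2, h3, h4, h5, h6, h7⟩ := h k (by exact_mod_cast hk1)
  have hCk : (k : ℝ) ≤ C * k := by nlinarith
  have hk1n : (k : ℝ) ≤ k ^ (n + 1) := by
    rw [pow_succ]
    have := one_le_pow₀ (n := n) (show (1 : ℝ) ≤ k by linarith)
    nlinarith
  refine ⟨⟨A', β, C * k, |β - s.α|⟩, ⟨h1, h2, h3, h4, h5, by linarith, h6⟩, rfl, ?_, hk3.trans hCk, hk4.trans hCk, ?_⟩
  · show |β - s.α| ≤ s.δ / 4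
    refine h7.trans ((div_le_div_of_nonneg_left hC0.le hkp hk1n).trans ?_)
    rw [div_le_iff₀ hδ] at hk2
    rw [div_le_div_iff₀ hkp (by norm_num)]
    linarith
  · show Real.log |β - s.α| ≤ -(((n : ℝ) + 1) * (1 - 1 / (j + 1)) * Real.log (C * k))
    have hj : (0 : ℝ) < (j : ℝ) + 1 := by positivity
    have hlC : 0 ≤ Real.log C := Real.log_nonneg hC
    have e1 := Real.log_le_log h6 h7
    rw [Real.log_div hC0.ne' (by positivity), Real.log_pow] at e1
    have e2 : Real.log (C * k) = Real.log C + Real.log k := Real.log_mul hC0.ne' hkp.ne'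
    have e3 : ((n : ℝ) + 2) * Real.log C * (j + 1) ≤ Real.log k := by
      rw [Real.le_log_iff_exp_le hkp]
      exact hk5
    push_cast at e1
    have hk00 : 0 ≤ Real.log k := Real.log_nonneg (by linarith)
    obtain ⟨L, hL⟩ : ∃ L : ℝ, L = Real.log (C * k) := ⟨_, rfl⟩
    rw [← hL] at e2 ⊢
    have e4 : ((n : ℝ) + 2) * Real.log C ≤ L / (j + 1) := by
      rw [le_div_iff₀ hj]
      linarith
    have hL0 : 0 ≤ L / (j + 1) := by
      rw [e2]
      positivity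
    have e5 : -(((n : ℝ) + 1) * (1 - 1 / (j + 1)) * L) = -(((n : ℝ) + 1) * L) + ((n : ℝ) + 1) * (L / (j + 1)) := by
      field_simp
      ring
    rw [e5]
    have hn0 : (0 : ℝ) ≤ n := Nat.cast_nonneg n
    have e6 : L / (j + 1) ≤ ((n : ℝ) + 1) * (L / (j + 1)) := by nlinarith
    have e7 : ((n : ℝ) + 1) * L = ((n : ℝ) + 1) * Real.log C + ((n : ℝ) + 1) * Real.log k := by rw [e2]; ring
    rw [e7]
    linarith

end Pool.Agent.H595.AD
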