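import Pool.Agent.H595.AD.AD3

/-!
# The limit of the chain
-/

set_option autoImplicit false

namespace Pool.Agent.H595.AD

open Polynomial MeasureTheory Filter Topology Set Pool.Agent.H595.Dens Pool.Agent.H595.Alg

/-- the chain and its limit -/
structure Chain (n : ℕ) (s : ℕ → St) (t : ℝ) : Prop where
  good : ∀ j, Good n (s j)
  nxt : ∀ j, Nxt n j (s j) (s (j + 1))
  pos : ∀ j, 0 < |t - (s j).α|
  le : ∀ j, |t - (s j).α| ≤ 4 / 3 * (s (j + 1)).δ

theorem exists_tchain (n : ℕ) {a b : ℝ} (hab : a < b) : ∃ (s : ℕ → St) (t : ℝ), a < t ∧ t < b ∧ Chain n s t := by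
  obtain ⟨A, α, hA, hE, hd, hα, h1, h2⟩ := start n hab
  obtain ⟨s, hs0, hs1, hs2⟩ := exists_chain (Good n) (Nxt n) ⟨A, α, max 2 (hgt A), min (α - a) (b - α)⟩
    ⟨hA, hE, hd, hα, fun i => (coeff_le_hgt A i).trans (le_max_right _ _), le_max_left _ _,
      lt_min (by linarith) (by linarith)⟩ (exists_next n)
  have hδ : ∀ j, |(s (j + 1)).α - (s j).α| = (s (j + 1)).δ := fun j => (hs2 j).1.symm
  obtain ⟨t, ht⟩ := exists_limit (T := fun j => (s j).α) (fun j => by
    show 0 < |(s (j + 1)).α - (s j).α|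
    rw [hδ]
    exact (hs1 (j + 1)).2.2.2.2.2.2) (fun j => by
    show |(s (j + 1 + 1)).α - (s (j + 1)).α| ≤ |(s (j + 1)).α - (s j).α| / 4
    rw [hδ, hδ]
    exact (hs2 (j + 1)).2.1)
  have hle : ∀ j, |t - (s j).α| ≤ 4 / 3 * (s (j + 1)).δ := fun j => by
    have := (ht j).2
    rwa [hδ] at this
  have h0 := hle 0
  have h3 := (hs2 0).2.1
  have h4 := (hs1 0).2.2.2.2.2.2
  rw [hs0] at h0 h3 h4
  simp only at h0 h3 h4
  rw [abs_le] at h0
  have h5 := min_le_left (α - a) (b - α)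
  have h6 := min_le_right (α - a) (b - α)
  exact ⟨s, t, by linarith [h0.1], by linarith [h0.2], hs1, hs2, fun j => (ht j).1, hle⟩

namespace Chain

variable {n : ℕ} {s : ℕ → St} {t : ℝ}

theorem K2 (h : Chain n s t) (j : ℕ) : 2 ≤ (s j).K := (h.good j).2.2.2.2.2.1

theorem δ0 (h : Chain n s t) (j : ℕ) : 0 < (s j).δ := (h.good j).2.2.2.2.2.2

theorem log_ge (h : Chain n s t) (j : ℕ) : 1 / 2 ≤ Real.log (s j).K := by
  have h1 := Real.log_le_log (by norm_num) (h.K2 j)
  have h2 := Real.log_two_gt_d9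
  linarith

theorem log_growth (h : Chain n s t) (j : ℕ) : ((j : ℝ) + 1) * Real.log (s j).K ≤ Real.log (s (j + 1)).K := by
  have h1 := (h.nxt j).2.2.1
  have h2 := h.K2 j
  have h3 := Real.log_le_log (by positivity) h1
  rw [Real.log_pow] at h3
  push_cast at h3
  exact h3

theorem log_add (h : Chain n s t) (j : ℕ) : Real.log (s j).K + 1 / 2 ≤ Real.log (s (j + 1)).K := by
  have h1 := (h.nxt j).2.2.2.1
  have h2 := h.K2 j
  have h3 := Real.log_le_log (by positivity) h1
  rw [Real.log_mul (by norm_num) (by linarith)] at h3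
  have h4 := Real.log_two_gt_d9
  linarith

theorem log_ge_nat (h : Chain n s t) (j : ℕ) : (j : ℝ) / 2 ≤ Real.log (s j).K := by
  induction j with
  | zero =>
    have := h.log_ge 0
    push_cast
    linarith
  | succ j ih =>
    have := h.log_add j
    push_cast
    linarith

theorem tendsto (h : Chain n s t) : Tendsto (fun j => Real.log (s j).K) atTop atTop := by
  refine tendsto_atTop_mono h.log_ge_nat ?_
  exact Tendsto.atTop_div_const (by norm_num) tendsto_natCast_atTop_atTop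

theorem mono (h : Chain n s t) : Monotone (fun j => Real.log (s j).K) :=
  monotone_nat_of_le_succ fun j => by
    have := h.log_add j
    show Real.log (s j).K ≤ Real.log (s (j + 1)).K
    linarith

theorem log_dist (h : Chain n s t) (j : ℕ) : Real.log |t - (s j).α| ≤
    1 - ((n : ℝ) + 1) * (1 - 1 / (j + 1)) * Real.log (s (j + 1)).K := by
  have h1 := Real.log_le_log (h.pos j) (h.le j)
  rw [Real.log_mul (by norm_num) (h.δ0 (j + 1)).ne'] at h1
  have h2 := (h.nxt j).2.2.2.2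
  have h3 : Real.log (4 / 3) ≤ 1 := by
    have := Real.log_le_sub_one_of_pos (show (0 : ℝ) < 4 / 3 by norm_num)
    linarith
  linarith

theorem near (h : Chain n s t) {w y : ℝ} (j : ℕ) (h1 : Real.log (s j).K ≤ y)
    (h2 : Real.log |t - (s j).α| ≤ -(w * y)) : NearAlg (n + 1) t w (Real.exp y) := by
  obtain ⟨hA, hE, hn, hα, hK, hK2, hδ⟩ := h.good j
  refine ⟨((s j).α : ℂ), (s j).A, hA, hn.le, fun i => (hK i).trans ?_, ?_, ?_⟩
  · rw [← Real.log_le_iff_le_exp (by linarith)]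
    exact h1
  · rw [cast_aeval, hα, Complex.ofReal_zero]
  · rw [← Complex.ofReal_sub, Complex.norm_real, Real.norm_eq_abs, ← Real.exp_mul]
    rw [← Real.log_le_iff_le_exp (h.pos j)]
    linarith

/-- the lower bound -/
theorem lower (h : Chain n s t) {w : ℝ} (hw : (n : ℝ) + 1 ≤ w) :
    ((n : ℝ) + 1) / w ≤ lowerDensity {x | NearAlg (n + 1) t w (Real.exp x)} := by
  have hn0 : (0 : ℝ) ≤ n := Nat.cast_nonneg n
  have hw0 : 0 < w := by linarith
  have hw' : w ≠ 0 := hw0.ne'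
  obtain ⟨D, hD⟩ : ∃ D : ℝ, D = ((n : ℝ) + 1) / w := ⟨_, rfl⟩
  have hD0 : 0 ≤ D := by rw [hD]; positivity
  have hD1 : D ≤ 1 := by rw [hD, div_le_one hw0]; exact hw
  rw [← hD]
  refine le_of_forall_pos_sub_le (fun η hη => ?_)
  obtain ⟨N, hN⟩ := exists_nat_ge (D / η)
  rw [div_le_iff₀ hη] at hN
  have hx0 : ∀ j, 0 ≤ Real.log (s j).K := fun j => by linarith [h.log_ge j]
  refine dens_super (x := fun j => Real.log (s j).K) (L := fun j => -Real.log |t - (s j).α| / w) (F := 0)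
    (E := D * Real.log (s N).K + 1 / w) (by linarith) le_rfl
    (by have := mul_nonneg hD0 (hx0 N); positivity) hx0 (fun j => by linarith [h.log_add j])
    h.log_growth h.tendsto (fun j => ?_) (fun j y h1 h2 => h.near j h1 ?_)
  · have h1 := h.log_dist j
    have h2 : D / (j + 1) * Real.log (s (j + 1)).K ≤ η * Real.log (s (j + 1)).K + D * Real.log (s N).K := by
      have hj : (0 : ℝ) < (j : ℝ) + 1 := by positivity
      rcases le_or_gt N (j + 1) with h3 | h3
      · have h4 : (N : ℝ) ≤ j + 1 := by exact_mod_cast h3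
        have h5 : D / (j + 1) ≤ η := by
          rw [div_le_iff₀ hj]
          nlinarith
        have h6 := mul_le_mul_of_nonneg_right h5 (hx0 (j + 1))
        have h7 := mul_nonneg hD0 (hx0 N)
        linarith
      · have h4 : Real.log (s (j + 1)).K ≤ Real.log (s N).K := h.mono h3.le
        have h5 : D / (j + 1) ≤ D := div_le_self hD0 (by linarith)
        have h6 := mul_le_mul h5 h4 (hx0 _) hD0
        have h7 := mul_nonneg hη.le (hx0 (j + 1))
        linarith
    show (D - η) * Real.log (s (j + 1)).K - 0 * Real.log (s j).K - (D * Real.log (s N).K + 1 / w) ≤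
      -Real.log |t - (s j).α| / w
    have h8 : (((n : ℝ) + 1) * (1 - 1 / (j + 1)) * Real.log (s (j + 1)).K - 1) / w ≤ -Real.log |t - (s j).α| / w := by
      apply div_le_div_of_nonneg_right _ hw0.le
      linarith
    refine le_trans ?_ h8
    have h9 : (((n : ℝ) + 1) * (1 - 1 / (j + 1)) * Real.log (s (j + 1)).K - 1) / w =
        D * Real.log (s (j + 1)).K - D / (j + 1) * Real.log (s (j + 1)).K - 1 / w := by
      rw [hD]
      field_simp
    rw [h9]
    linarith
  · rw [lt_div_iff₀ hw0] at h2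
    linarith

theorem tendsto_α (h : Chain n s t) : Tendsto (fun j => (s j).α) atTop (𝓝 t) := by
  have h1 : ∀ j, (s j).δ ≤ (s 0).δ * (1 / 4) ^ j := by
    intro j
    induction j with
    | zero => simp
    | succ j ih =>
      have := (h.nxt j).2.1
      rw [pow_succ]
      linarith
  rw [tendsto_iff_dist_tendsto_zero]
  have h2 : Tendsto (fun j : ℕ => 4 / 3 * ((s 0).δ * (1 / 4) ^ (j + 1))) atTop (𝓝 (4 / 3 * ((s 0).δ * 0))) :=
    ((tendsto_pow_atTop_nhds_zero_of_lt_one (by norm_num) (by norm_num)).comp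
      (tendsto_add_atTop_nat 1)).const_mul _ |>.const_mul _
  rw [mul_zero, mul_zero] at h2
  refine squeeze_zero (fun j => dist_nonneg) (fun j => ?_) h2
  rw [Real.dist_eq, abs_sub_comm]
  exact (h.le j).trans (mul_le_mul_of_nonneg_left (h1 (j + 1)) (by norm_num))

/-- the limit is transcendental -/
theorem notAlg (h : Chain n s t) (D : ℕ) : NotAlg D t := by
  by_contra hcon
  obtain ⟨B, hB⟩ := exists_pol hcon
  obtain ⟨d, hd⟩ : ∃ d : ℕ, d = max D (n + 1) := ⟨_, rfl⟩
  have hdD : D ≤ d := by rw [hd]; exact le_max_left _ _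
  have hdn : n + 1 ≤ d := by rw [hd]; exact le_max_right _ _
  obtain ⟨B', hB'⟩ : ∃ B' : Pol d, B'.1 = B.1 := ⟨⟨B.1, B.2.1, B.2.2.1, B.2.2.2.trans hdD⟩, rfl⟩
  have hA : ∀ j, ∃ A : Pol d, A.1 = (s j).A := fun j => by
    obtain ⟨h1, h2, h3, -⟩ := h.good j
    exact ⟨⟨(s j).A, h1, by omega, by omega⟩, rfl⟩
  choose A hA using hA
  -- the roots of the polynomials with the height of `B`
  have hfin : {A : Pol d | hgt A.1 = hgt B.1}.Finite := by
    have h1 := finite_aX (J := Unit) (d := d) (Real.log (hgt B.1))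
    have h2 : ({A : Pol d | hgt A.1 = hgt B.1}) ⊆ Prod.snd '' {v : Unit × Pol d | aX v ≤ Real.log (hgt B.1)} := by
      intro A hA
      refine ⟨((), A), ?_, rfl⟩
      show Real.log (hgt A.1) ≤ Real.log (hgt B.1)
      rw [show hgt A.1 = hgt B.1 from hA]
    exact (h1.image _).subset h2
  have hfin2 : {x : ℝ | ∃ A : Pol d, hgt A.1 = hgt B.1 ∧ aeval x A.1 = 0}.Finite := by
    have h1 : {x : ℝ | ∃ A : Pol d, hgt A.1 = hgt B.1 ∧ aeval x A.1 = 0} =
        ⋃ A ∈ {A : Pol d | hgt A.1 = hgt B.1}, {x : ℝ | aeval x A.1 = 0} := by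
      ext x
      simp
    rw [h1]
    refine hfin.biUnion (fun A _ => ?_)
    refine (A.1.rootSet_finite ℝ).subset ?_
    intro α hα
    rw [mem_rootSet]
    exact ⟨A.2.1.ne_zero, hα⟩
  have hnb : ∀ᶠ j in atTop, (s j).α ∉ {x : ℝ | ∃ A : Pol d, hgt A.1 = hgt B.1 ∧ aeval x A.1 = 0} \ {t} := by
    have h1 : ({x : ℝ | ∃ A : Pol d, hgt A.1 = hgt B.1 ∧ aeval x A.1 = 0} \ {t})ᶜ ∈ 𝓝 t := by
      refine (hfin2.subset diff_subset).isClosed.isOpen_compl.mem_nhds ?_
      simp
    exact h.tendsto_α.eventually h1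
  obtain ⟨c, hc, hL⟩ := liouville d
  obtain ⟨G, hG⟩ : ∃ G : ℝ, G = d * Real.log (hgt B.1) + 1 - Real.log c := ⟨_, rfl⟩
  obtain ⟨N, hN⟩ := exists_nat_ge (2 * (d + 2 * (|G| + 1)))
  obtain ⟨j, hj1, hj2⟩ := (hnb.and (eventually_ge_atTop (N + 1))).exists
  have hne : hgt (A j).1 ≠ hgt B'.1 := by
    intro h3
    apply hj1
    refine ⟨⟨A j, by rw [h3, hB'], ?_⟩, ?_⟩
    · rw [hA j]
      exact (h.good j).2.2.2.1
    · intro h4
      have h5 := h.pos j
      rw [show (s j).α = t from h4, sub_self, abs_zero] at h5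
      exact lt_irrefl _ h5
  have h1 := hL (A j) B' hne ((s j).α : ℂ) (t : ℂ)
    (by rw [cast_aeval, hA j, (h.good j).2.2.2.1, Complex.ofReal_zero])
    (by rw [cast_aeval, hB', hB, Complex.ofReal_zero])
  rw [← Complex.ofReal_sub, Complex.norm_real, Real.norm_eq_abs, abs_sub_comm] at h1
  have hAj := hgt_pos (A j)
  have hBj := hgt_pos B'
  have h2 := Real.log_le_log hc h1
  rw [Real.log_mul (by positivity) (h.pos j).ne', Real.log_rpow (by positivity),
    Real.log_mul (by positivity) (by positivity)] at h2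
  have h3 : Real.log (hgt (A j).1) ≤ Real.log (s j).K := by
    apply Real.log_le_log (by linarith)
    rw [hA j]
    exact hgt_le (by linarith [h.K2 j]) (h.good j).2.2.2.2.1
  have h4 := h.log_dist j
  have h5 := h.log_growth j
  have h6 := h.log_ge j
  have hj0 : (N : ℝ) + 1 ≤ j := by exact_mod_cast hj2
  have hN0 : (0 : ℝ) ≤ N := Nat.cast_nonneg N
  have hn0 : (0 : ℝ) ≤ n := Nat.cast_nonneg n
  have hd0 : (0 : ℝ) ≤ d := Nat.cast_nonneg d
  have h7 : (1 : ℝ) / 2 ≤ ((n : ℝ) + 1) * (1 - 1 / (j + 1)) := by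
    have h8 : 1 / ((j : ℝ) + 1) ≤ 1 / 2 := by
      apply one_div_le_one_div_of_le (by norm_num)
      linarith
    nlinarith
  have h9 : 1 / 2 * (((j : ℝ) + 1) * Real.log (s j).K) ≤
      ((n : ℝ) + 1) * (1 - 1 / (j + 1)) * Real.log (s (j + 1)).K := by
    refine mul_le_mul h7 h5 (by positivity) (by linarith)
  have h10 : (d : ℝ) * Real.log (hgt (A j).1) ≤ d * Real.log (s j).K := mul_le_mul_of_nonneg_left h3 hd0
  have h11 : 0 ≤ G + (d - ((j : ℝ) + 1) / 2) * Real.log (s j).K := by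
    rw [hG]
    rw [hB'] at h2
    linarith
  have h12 : (d : ℝ) - ((j : ℝ) + 1) / 2 ≤ -(2 * (|G| + 1)) := by linarith
  have h13 : ((d : ℝ) - ((j : ℝ) + 1) / 2) * Real.log (s j).K ≤ -(2 * (|G| + 1)) * Real.log (s j).K :=
    mul_le_mul_of_nonneg_right h12 (by linarith)
  have h14 : (2 * (|G| + 1)) * (1 / 2) ≤ (2 * (|G| + 1)) * Real.log (s j).K := by
    apply mul_le_mul_of_nonneg_left h6
    positivity
  have h15 := le_abs_self G
  linarith

end Chain

end Pool.Agent.H595.AD
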