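import Pool.Agent.H595.AD.AD4
import Pool.Agent.H595.GT.GT2

/-!
# The law
-/

set_option autoImplicit false

namespace Pool.Agent.H595.AD

open Polynomial MeasureTheory Filter Topology Set Pool.Agent.H595.Dens Pool.Agent.H595.Alg

/-- the scales -/
def adScales (n : ℕ) (t w : ℝ) : Set ℝ := {x | NearAlg n t w (Real.exp x)}

theorem upper {n : ℕ} {t w : ℝ} (hn : 1 ≤ n) (ht : NotAlg n t) (hw : 2 * (n : ℝ) < w) :
    lowerDensity (adScales n t w) ≤ n / w := by
  have hn' : (1 : ℝ) ≤ n := by exact_mod_cast hn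
  have h1 := alg_high (J := Unit) (d := n) (E := n) le_rfl (θ := fun _ => t) (fun _ => ht)
    (fun j k hjk => absurd (Subsingleton.elim j k) hjk) (w := w) (by linarith) hw
  have h2 : algScales n (fun _ : Unit => t) w = adScales n t w := by
    ext x
    exact ⟨fun ⟨_, h⟩ => h, fun h => ⟨(), h⟩⟩
  rwa [h2] at h1

theorem one {n : ℕ} {t : ℝ} (ht : ¬ NotAlg n t) (w : ℝ) : lowerDensity (adScales n t w) = 1 := by
  obtain ⟨A, hA⟩ := exists_pol ht
  have h1 := hgt_pos A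
  refine Pool.Agent.H595.GT.density_one (B := Real.log (hgt A.1)) (Real.log_nonneg h1) (fun x hx => ?_)
  refine ⟨(t : ℂ), A.1, A.2.1, A.2.2.2, fun i => (coeff_le_hgt A.1 i).trans ?_, ?_, ?_⟩
  · rw [← Real.log_le_iff_le_exp (by linarith)]
    exact hx
  · rw [cast_aeval, hA, Complex.ofReal_zero]
  · rw [sub_self, norm_zero]
    positivity

theorem exists_t {n : ℕ} (hn : 1 ≤ n) {a b : ℝ} (hab : a < b) : ∃ t : ℝ, a < t ∧ t < b ∧ (∀ D, NotAlg D t) ∧
    ∀ w : ℝ, n ≤ w → n / w ≤ lowerDensity (adScales n t w) := by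
  obtain ⟨m, rfl⟩ : ∃ m, n = m + 1 := ⟨n - 1, by omega⟩
  obtain ⟨s, t, h1, h2, h3⟩ := exists_tchain m hab
  refine ⟨t, h1, h2, h3.notAlg, fun w hw => ?_⟩
  push_cast at hw ⊢
  exact h3.lower hw

end Pool.Agent.H595.AD
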